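import Mathlib
import Pool.Agent.V8H12.AM.G

set_option autoImplicit false

/-!
# Degrees which are values of an arithmetic function: every number of points and every multiplicity

Let `f` be a positive multiplicative function of at most polynomial growth with `f(p) = B p + c` for all large primes `p`, `B ≥ 1`
(for instance the identity, Euler's function `φ`, the sum `σ` of the divisors, `m τ(m)`), or an additive function with
`f(p) = B p + c` for all large primes `p` (for instance the sum of the prime factors), or the largest prime factor, or Kempner's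
function. Let `ρ > 0`. The following holds for the degrees `d = f(t)`, `N < t ≤ N + ρ N`, for all large `N`.

(1) For at least `1.4` per cent of the `t` in `(N, N + ρ N]`: for EVERY number `n ≥ 10` of points and EVERY multiplicity `m ≥ 1` the
space of the forms of degree `d` with `n` general points of multiplicity `m` has the expected dimension.

(2) For ten points this holds (for every multiplicity) for at least `48.6` per cent of the `t`, for eleven points for at least
`98.6` per cent.

The values of these functions form thin sets (in the case of `φ` and `σ`) or are taken with very large multiplicities, and so this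
does not follow from the density of the good degrees.

Proof. The plane systems are those of helper141 (`Pool.Agent.N141.SG`): a degree `d` is good for all numbers of points and all
multiplicities if the numbers `(2 d + 3) / √n` lie in certain sets modulo one. We show that the exponential sum of `θ f(t)` over
`t ≤ N` is `o(N)` for every irrational algebraic `θ` (`Pool.Agent.V8H12.AM`). For most `t` one has `t = m p`, `p` a prime
larger than all prime powers which divide `m`, `p > N ^ κ`, and `f(m p) = a(m) + b(m) p`. The sum over `p` is small by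
Vinogradov's method, unless a small multiple of `b(m) θ` is very close to an integer. For algebraic `θ` the set of such
`b(m)` is sparse by Liouville's inequality, uniformly in `N`, and the values of a multiplicative function `b` avoid
sparse sets (`Pool.Agent.N733.TG`, helper733).
-/

namespace Pool.Agent.Results.MP_d03834_ag.ArithmeticDegrees

open MvPolynomial Filter

/-- For general points `P 1, …, P n` (outside the hypersurface `F = 0` of the space of all
configurations) the space of the forms of degree `d` which vanish to order at least `m` at all the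
points has the expected dimension. -/
def Expected (n m d : ℕ) : Prop :=
  ∃ F : MvPolynomial (Fin n × Fin 2) ℂ, F ≠ 0 ∧
    ∀ P : Fin n → Fin 2 → ℂ,
      MvPolynomial.eval (fun ij : Fin n × Fin 2 => P ij.1 ij.2) F ≠ 0 →
        Module.finrank ℂ
          ↥(MvPolynomial.homogeneousSubmodule (Fin 3) ℂ d ⊓
            Submodule.restrictScalars ℂ
              (⨅ i : Fin n,
                (Ideal.span
                  ({MvPolynomial.X 0 - MvPolynomial.C (P i 0) * MvPolynomial.X 2,
                    MvPolynomial.X 1 - MvPolynomial.C (P i 1) * MvPolynomial.X 2} :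
                    Set (MvPolynomial (Fin 3) ℂ))) ^ m))
        = Nat.choose (d + 2) 2 - n * Nat.choose (m + 1) 2

/-- The conjecture holds for the degree `d`: for every number `n ≥ 10` of points and every
multiplicity. -/
def Holds (d : ℕ) : Prop := ∀ n : ℕ, 10 ≤ n → ∀ m : ℕ, 1 ≤ m → Expected n m d

/-- `f p = B p + c` for all large primes `p`, with an integer `B ≥ 1`. -/
def Linear (f : ℕ → ℕ) : Prop :=
  ∃ (B : ℕ) (c : ℤ) (P : ℕ), 1 ≤ B ∧ ∀ p : ℕ, P ≤ p → p.Prime → (f p : ℤ) = B * p + c

/-- A positive multiplicative function of at most polynomial growth, linear at the large primes. -/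
def Multiplicative (f : ℕ → ℕ) : Prop :=
  (∀ m n : ℕ, Nat.Coprime m n → f (m * n) = f m * f n) ∧ (∀ m : ℕ, 1 ≤ m → 1 ≤ f m) ∧
    (∃ C D : ℕ, ∀ m : ℕ, 1 ≤ m → f m ≤ C * m ^ D) ∧ Linear f

/-- An additive function, linear at the large primes. -/
def Additive (f : ℕ → ℕ) : Prop :=
  (∀ m n : ℕ, Nat.Coprime m n → f (m * n) = f m + f n) ∧ Linear f

/-- The largest prime factor (`0` for `m = 1`). -/
def largest (m : ℕ) : ℕ := m.primeFactors.sup id

/-- Kempner's function: the least `k` such that `m` divides `k!`. -/
noncomputable def kempner (m : ℕ) : ℕ := sInf {k : ℕ | m ∣ k.factorial}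

/-- The number of the `t` with `N < t ≤ N + ρ N` and `p t`. -/
noncomputable def count (ρ : ℝ) (p : ℕ → Prop) (N : ℕ) : ℝ :=
  ({t : ℕ | N < t ∧ t ≤ N + ⌊ρ * N⌋₊ ∧ p t}.ncard : ℝ)

theorem expected_of {n m d : ℕ} (h : ∃ F : MvPolynomial (Fin n × Fin 2) ℚ, F ≠ 0 ∧
    ∀ P : Fin n → Fin 2 → ℂ, MvPolynomial.aeval (fun ij : Fin n × Fin 2 => P ij.1 ij.2) F ≠ 0 →
      Pool.Agent.H932R3.ExpDim ℂ (fun _ => m) P d) : Expected n m d := by
  obtain ⟨F, hF, hF'⟩ := h
  refine ⟨F.map (algebraMap ℚ ℂ), Pool.Agent.H932R3.map_ne_zero_of hF, fun P hP => ?_⟩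
  rw [MvPolynomial.eval_map] at hP
  have h1 := hF' P hP
  unfold Pool.Agent.H932R3.ExpDim at h1
  rw [Finset.sum_const, Finset.card_univ, Fintype.card_fin, smul_eq_mul] at h1
  exact h1

theorem near_of {n d : ℕ} (h : Pool.Agent.N141.SG.NearDeg n d) (m : ℕ) (hm : 1 ≤ m) : Expected n m d :=
  expected_of (h m hm (fun _ => m) fun _ => Or.inl rfl)

theorem count_mono (ρ : ℝ) {p q : ℕ → Prop} (h : ∀ t, p t → q t) (N : ℕ) :
    ({t : ℕ | t ∈ Pool.Agent.V8H12.AM.win ρ N ∧ p t}.ncard : ℝ) ≤ count ρ q N := by
  unfold count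
  have hfin : {t : ℕ | N < t ∧ t ≤ N + ⌊ρ * N⌋₊ ∧ q t}.Finite :=
    (Set.finite_Iic (N + ⌊ρ * N⌋₊)).subset fun t ht => ht.2.1
  have hsub : {t : ℕ | t ∈ Pool.Agent.V8H12.AM.win ρ N ∧ p t} ⊆ {t : ℕ | N < t ∧ t ≤ N + ⌊ρ * N⌋₊ ∧ q t} := by
    rintro t ⟨h1, h2⟩
    rw [Pool.Agent.V8H12.AM.win, Finset.mem_Ioc] at h1
    exact ⟨h1.1, h1.2, h t h2⟩
  exact_mod_cast Set.ncard_le_ncard hsub hfin

theorem count_true (ρ : ℝ) (N : ℕ) : count ρ (fun _ => True) N = ((⌊ρ * N⌋₊ : ℕ) : ℝ) := by
  unfold count
  congr 1
  have : {t : ℕ | N < t ∧ t ≤ N + ⌊ρ * N⌋₊ ∧ True} = ((Finset.Ioc N (N + ⌊ρ * N⌋₊) : Finset ℕ) : Set ℕ) := by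
    ext t
    simp
  rw [this, Set.ncard_coe_finset, Nat.card_Ioc]
  omega

theorem pl_of {f : ℕ → ℕ} (h : Multiplicative f ∨ Additive f ∨ f = largest ∨ f = kempner) :
    Pool.Agent.V8H12.AM.PL f := by
  rcases h with ⟨h1, h2, h3, h4⟩ | ⟨h1, h2⟩ | h | h
  · exact Pool.Agent.V8H12.AM.MulLin.pl ⟨h1, h2, h3, h4⟩
  · exact Pool.Agent.V8H12.AM.AddLin.pl ⟨h1, h2⟩
  · rw [h]
    exact Pool.Agent.V8H12.AM.pl_largest
  · rw [h]
    exact Pool.Agent.V8H12.AM.pl_kempner

/-- **Main result.** Let `f` be multiplicative (`Multiplicative`) or additive (`Additive`) and linear at the large primes, or the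
largest prime factor, or Kempner's function. For every `ρ > 0` and all large `N` the degree `f t` is good for all numbers of
points and all multiplicities for at least `1.4` per cent of the `t` in `(N, N + ρ N]`, it is good for ten points and all
multiplicities for at least `48.6` per cent and for eleven points and all multiplicities for at least `98.6` per cent of
them. The identity, Euler's function, the sum of the divisors, the product of `m` and the number of its divisors are
`Multiplicative`, the sum of the prime factors is `Additive`. -/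
theorem result :
    (∀ f : ℕ → ℕ, (Multiplicative f ∨ Additive f ∨ f = largest ∨ f = kempner) → ∀ ρ : ℝ, 0 < ρ →
      (∀ᶠ N : ℕ in atTop, 14 / 1000 * count ρ (fun _ => True) N ≤ count ρ (fun t => Holds (f t)) N) ∧
      (∀ᶠ N : ℕ in atTop, 486 / 1000 * count ρ (fun _ => True) N ≤
        count ρ (fun t => ∀ m : ℕ, 1 ≤ m → Expected 10 m (f t)) N) ∧
      ∀ᶠ N : ℕ in atTop, 986 / 1000 * count ρ (fun _ => True) N ≤
        count ρ (fun t => ∀ m : ℕ, 1 ≤ m → Expected 11 m (f t)) N) ∧
    (Multiplicative (fun m => m) ∧ Multiplicative Nat.totient ∧ Multiplicative (fun m => ∑ d ∈ m.divisors, d) ∧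
      Multiplicative (fun m => m * m.divisors.card) ∧ Additive (fun m => m.primeFactorsList.sum)) := by
  have h : ∀ {f : ℕ → ℕ}, Pool.Agent.V8H12.AM.MulLin f → Multiplicative f :=
    fun hf => ⟨hf.mul, hf.pos, hf.growth, hf.prime⟩
  refine ⟨fun f hf ρ hρ => ⟨?_, ?_, ?_⟩,
    ⟨h Pool.Agent.V8H12.AM.mulLin_id, h Pool.Agent.V8H12.AM.mulLin_totient, h Pool.Agent.V8H12.AM.mulLin_sigma,
      h Pool.Agent.V8H12.AM.mulLin_div,
      ⟨Pool.Agent.V8H12.AM.addLin_sopfr.add, Pool.Agent.V8H12.AM.addLin_sopfr.prime⟩⟩⟩
  · filter_upwards [Pool.Agent.V8H12.AM.dtgt_win (pl_of hf) hρ] with N hN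
    rw [count_true]
    exact hN.trans (count_mono ρ (fun t ht n hn m hm => expected_of (Pool.Agent.N141.SG.every_deg ht hn hm)) N)
  · filter_upwards [Pool.Agent.V8H12.AM.ten_win (pl_of hf) hρ] with N hN
    rw [count_true]
    exact hN.trans (count_mono ρ (fun t ht m hm => near_of ht m hm) N)
  · filter_upwards [Pool.Agent.V8H12.AM.eleven_win (pl_of hf) hρ] with N hN
    rw [count_true]
    exact hN.trans (count_mono ρ (fun t ht m hm => near_of ht m hm) N)

end Pool.Agent.Results.MP_d03834_ag.ArithmeticDegrees
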