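import Mathlib
import Pool.Agent.V8H12.AM.F

set_option autoImplicit false

/-!
# General points whose multiplicity is a value of an arithmetic function

Let `f` be a positive multiplicative function of at most polynomial growth with `f(p) = B p + c` for all large primes `p`, `B ≥ 1`
(for instance the identity, Euler's function `φ`, the sum `σ` of the divisors, `m τ(m)`), or an additive function with
`f(p) = B p + c` for all large primes `p` (for instance the sum of the prime factors), or the largest prime factor, or Kempner's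
function. Let `ρ > 0`. The following holds for the multiplicities `f(t)`, `N < t ≤ N + ρ N`.

(1) For at least the proportion `10 ^ (-89)` of the `t` in `(N, N + ρ N]`, `N` large: for EVERY number `n ≥ 10` of points and EVERY degree
`d` the space of the forms of degree `d` with `n` general points of multiplicity `f(t) ≥ 1` has the expected dimension.

(2) For every single `n ≥ 10` this holds in all degrees for all but at most the proportion `bad n + δ` of the `t` in `(N, N + ρ N]`;
`bad n < 1`, `bad n = 0` for `n ≥ 37`, `n = 13`, `n = 21` and the squares, `bad 10 < 0.163`, `bad 11 < 0.053`.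

The values of these functions form thin sets (in the case of `φ` and `σ`) or are taken with very large multiplicities, and so this
does not follow from the density of the good multiplicities.

Proof. The plane systems are those of helper141 (`Pool.Agent.N141.SG`): a multiplicity `m` is good for all numbers of points if the
numbers `m √r` lie in certain arcs modulo one for 20 radicands `r`. We show that the exponential sum of `θ f(t)` over `t ≤ N` is `o(N)` for
every irrational algebraic `θ` (`Pool.Agent.V8H12.AM`). For most `t` one has `t = m p`, `p` a prime larger than all prime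
powers which divide `m`, `p > N ^ κ`, and `f(m p) = a(m) + b(m) p`. The sum over `p` is small by Vinogradov's method, unless
a small multiple of `b(m) θ` is very close to an integer. For algebraic `θ` the set of such `b(m)` is sparse by
Liouville's inequality, uniformly in `N`, and the values of a multiplicative function `b` avoid sparse sets
(`Pool.Agent.N733.TG`, helper733).
-/

namespace Pool.Agent.Results.MP_d03834_ag.ArithmeticMultiplicities

open MvPolynomial Filter

/-- For general points `P 1, …, P n` (outside the hypersurface `F = 0` of the space of all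
configurations) the space of the forms of degree `d` which vanish to order at least `m` at all the
points has the expected dimension, for every degree `d`. -/
def AllDegrees (n m : ℕ) : Prop :=
  ∃ F : MvPolynomial (Fin n × Fin 2) ℂ, F ≠ 0 ∧
    ∀ P : Fin n → Fin 2 → ℂ,
      MvPolynomial.eval (fun ij : Fin n × Fin 2 => P ij.1 ij.2) F ≠ 0 →
      ∀ d : ℕ,
        Module.finrank ℂ
          ↥(MvPolynomial.homogeneousSubmodule (Fin 3) ℂ d ⊓
            Submodule.restrictScalars ℂ
              (⨅ i : Fin n,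
                (Ideal.span
                  ({MvPolynomial.X 0 - MvPolynomial.C (P i 0) * MvPolynomial.X 2,
                    MvPolynomial.X 1 - MvPolynomial.C (P i 1) * MvPolynomial.X 2} :
                    Set (MvPolynomial (Fin 3) ℂ))) ^ m))
        = Nat.choose (d + 2) 2 - n * Nat.choose (m + 1) 2

/-- The conjecture holds for the multiplicity `m ≥ 1`: for every number `n ≥ 10` of points and every
degree. -/
def Holds (m : ℕ) : Prop := 1 ≤ m ∧ ∀ n : ℕ, 10 ≤ n → AllDegrees n m

open Classical in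
/-- The bound for the proportion of the bad multiplicities for `n` points. -/
noncomputable def bad (n : ℕ) : ℝ :=
  if 37 ≤ n ∨ n = 13 ∨ n = 21 ∨ IsSquare n then 0
  else if n = 11 ∨ n = 15 then (√(n : ℝ) - 3) / 6
  else (min (√(n : ℝ) - 3) (2 / 3 + 9 / (4 * √(n : ℝ))) +
    min (√(n : ℝ) - 3) (2 / 3 + 1 / (4 * √(n : ℝ)))) / 2

/-- `f p = B p + c` for all large primes `p`, with an integer `B ≥ 1`. -/
def Linear (f : ℕ → ℕ) : Prop :=
  ∃ (B : ℕ) (c : ℤ) (P : ℕ), 1 ≤ B ∧ ∀ p : ℕ, P ≤ p → p.Prime → (f p : ℤ) = B * p + c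

/-- A positive multiplicative function of at most polynomial growth, linear at the large primes. -/
def Multiplicative (f : ℕ → ℕ) : Prop :=
  (∀ m n : ℕ, Nat.Coprime m n → f (m * n) = f m * f n) ∧ (∀ m : ℕ, 1 ≤ m → 1 ≤ f m) ∧
    (∃ C D : ℕ, ∀ m : ℕ, 1 ≤ m → f m ≤ C * m ^ D) ∧ Linear f

/-- An additive function, linear at the large primes. -/
def Additive (f : ℕ → ℕ) : Prop :=
  (∀ m n : ℕ, Nat.Coprime m n → f (m * n) = f m + f n) ∧ Linear f

/-- The largest prime factor (`0` for `m = 1`). -/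
def largest (m : ℕ) : ℕ := m.primeFactors.sup id

/-- Kempner's function: the least `k` such that `m` divides `k!`. -/
noncomputable def kempner (m : ℕ) : ℕ := sInf {k : ℕ | m ∣ k.factorial}

/-- The number of the `t` with `N < t ≤ N + ρ N` and `p t`. -/
noncomputable def count (ρ : ℝ) (p : ℕ → Prop) (N : ℕ) : ℝ :=
  ({t : ℕ | N < t ∧ t ≤ N + ⌊ρ * N⌋₊ ∧ p t}.ncard : ℝ)

theorem allDegrees_of {n m : ℕ} (h : Pool.Agent.N141.SG.Ex n m) : AllDegrees n m := by
  obtain ⟨F, hF, hF'⟩ := h
  refine ⟨F.map (algebraMap ℚ ℂ), Pool.Agent.H932R3.map_ne_zero_of hF, fun P hP d => ?_⟩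
  rw [MvPolynomial.eval_map] at hP
  have h1 := hF' P hP d
  unfold Pool.Agent.H932R3.ExpDim at h1
  rw [Finset.sum_const, Finset.card_univ, Fintype.card_fin, smul_eq_mul] at h1
  exact h1

theorem holds_of {m : ℕ} (hm : 1 ≤ m) (h : Pool.Agent.N141.SG.Tgt (m : ℕ)) : Holds m :=
  ⟨hm, fun _ hn => allDegrees_of (Pool.Agent.N141.SG.every h hm hn)⟩

theorem count_mono (ρ : ℝ) {p q : ℕ → Prop} (h : ∀ t, p t → q t) (N : ℕ) :
    ({t : ℕ | t ∈ Pool.Agent.V8H12.AM.win ρ N ∧ p t}.ncard : ℝ) ≤ count ρ q N := by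
  unfold count
  have hfin : {t : ℕ | N < t ∧ t ≤ N + ⌊ρ * N⌋₊ ∧ q t}.Finite :=
    (Set.finite_Iic (N + ⌊ρ * N⌋₊)).subset fun t ht => ht.2.1
  have hsub : {t : ℕ | t ∈ Pool.Agent.V8H12.AM.win ρ N ∧ p t} ⊆ {t : ℕ | N < t ∧ t ≤ N + ⌊ρ * N⌋₊ ∧ q t} := by
    rintro t ⟨h1, h2⟩
    rw [Pool.Agent.V8H12.AM.win, Finset.mem_Ioc] at h1
    exact ⟨h1.1, h1.2, h t h2⟩
  exact_mod_cast Set.ncard_le_ncard hsub hfin

theorem count_mono' (ρ : ℝ) {p q : ℕ → Prop} (h : ∀ t, p t → q t) (N : ℕ) :
    count ρ p N ≤ ({t : ℕ | t ∈ Pool.Agent.V8H12.AM.win ρ N ∧ q t}.ncard : ℝ) := by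
  unfold count
  have hfin : {t : ℕ | t ∈ Pool.Agent.V8H12.AM.win ρ N ∧ q t}.Finite :=
    (Finset.finite_toSet (Pool.Agent.V8H12.AM.win ρ N)).subset fun t ht => ht.1
  have hsub : {t : ℕ | N < t ∧ t ≤ N + ⌊ρ * N⌋₊ ∧ p t} ⊆ {t : ℕ | t ∈ Pool.Agent.V8H12.AM.win ρ N ∧ q t} := by
    rintro t ⟨h1, h2, h3⟩
    refine ⟨?_, h t h3⟩
    rw [Pool.Agent.V8H12.AM.win, Finset.mem_Ioc]
    exact ⟨h1, h2⟩
  exact_mod_cast Set.ncard_le_ncard hsub hfin

theorem count_true (ρ : ℝ) (N : ℕ) : count ρ (fun _ => True) N = ((⌊ρ * N⌋₊ : ℕ) : ℝ) := by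
  unfold count
  congr 1
  have : {t : ℕ | N < t ∧ t ≤ N + ⌊ρ * N⌋₊ ∧ True} = ((Finset.Ioc N (N + ⌊ρ * N⌋₊) : Finset ℕ) : Set ℕ) := by
    ext t
    simp
  rw [this, Set.ncard_coe_finset, Nat.card_Ioc]
  omega

theorem along {f : ℕ → ℕ} (hf : Pool.Agent.V8H12.AM.PL f) {ρ : ℝ} (hρ : 0 < ρ) :
    (∀ᶠ N : ℕ in atTop, 1 / 10 ^ 89 * count ρ (fun _ => True) N ≤ count ρ (fun t => Holds (f t)) N) ∧
    ∀ n : ℕ, 10 ≤ n → ∀ δ : ℝ, 0 < δ → ∀ᶠ N : ℕ in atTop,
      count ρ (fun t => ¬ (1 ≤ f t ∧ AllDegrees n (f t))) N ≤ (bad n + δ) * count ρ (fun _ => True) N := by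
  refine ⟨?_, fun n hn δ hδ => ?_⟩
  · filter_upwards [Pool.Agent.V8H12.AM.tgt_win hf hρ] with N hN
    rw [count_true]
    exact hN.trans (count_mono ρ (fun t ht => holds_of ht.1 ht.2) N)
  · filter_upwards [Pool.Agent.V8H12.AM.one_win hf hρ hn hδ] with N hN
    rw [count_true]
    refine (count_mono' ρ (fun t ht => ?_) N).trans hN
    rcases Nat.eq_zero_or_pos (f t) with h | h
    · exact Or.inl h
    · exact Or.inr fun h1 => ht ⟨h, allDegrees_of h1⟩

theorem pl_of {f : ℕ → ℕ} (h : Multiplicative f ∨ Additive f ∨ f = largest ∨ f = kempner) :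
    Pool.Agent.V8H12.AM.PL f := by
  rcases h with ⟨h1, h2, h3, h4⟩ | ⟨h1, h2⟩ | h | h
  · exact Pool.Agent.V8H12.AM.MulLin.pl ⟨h1, h2, h3, h4⟩
  · exact Pool.Agent.V8H12.AM.AddLin.pl ⟨h1, h2⟩
  · rw [h]
    exact Pool.Agent.V8H12.AM.pl_largest
  · rw [h]
    exact Pool.Agent.V8H12.AM.pl_kempner

/-- **Main result.** Let `f` be multiplicative (`Multiplicative`) or additive (`Additive`) and linear at the large primes, or the
largest prime factor, or Kempner's function. For every `ρ > 0` and all large `N` the multiplicity `f t` is good for all numbers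
of points and all degrees for at least the proportion `10 ^ (-89)` of the `t` in `(N, N + ρ N]`, and for every `n ≥ 10` it is
good for `n` points and all degrees for all but at most the proportion `bad n + δ` of them. The identity, Euler's function, the
sum of the divisors, the product of `m` and the number of its divisors are `Multiplicative`, the sum of the prime factors
is `Additive`. -/
theorem result :
    (∀ f : ℕ → ℕ, (Multiplicative f ∨ Additive f ∨ f = largest ∨ f = kempner) → ∀ ρ : ℝ, 0 < ρ →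
      (∀ᶠ N : ℕ in atTop, 1 / 10 ^ 89 * count ρ (fun _ => True) N ≤ count ρ (fun t => Holds (f t)) N) ∧
      ∀ n : ℕ, 10 ≤ n → ∀ δ : ℝ, 0 < δ → ∀ᶠ N : ℕ in atTop,
        count ρ (fun t => ¬ (1 ≤ f t ∧ AllDegrees n (f t))) N ≤ (bad n + δ) * count ρ (fun _ => True) N) ∧
    (Multiplicative (fun m => m) ∧ Multiplicative Nat.totient ∧ Multiplicative (fun m => ∑ d ∈ m.divisors, d) ∧
      Multiplicative (fun m => m * m.divisors.card) ∧ Additive (fun m => m.primeFactorsList.sum)) ∧
    (∀ n : ℕ, 10 ≤ n → bad n < 1) ∧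
    (bad 10 < 0.163 ∧ bad 11 < 0.053 ∧ bad 12 < 0.465 ∧ bad 14 < 0.738 ∧ bad 15 < 0.146) := by
  have h : ∀ {f : ℕ → ℕ}, Pool.Agent.V8H12.AM.MulLin f → Multiplicative f :=
    fun hf => ⟨hf.mul, hf.pos, hf.growth, hf.prime⟩
  refine ⟨fun f hf ρ hρ => along (pl_of hf) hρ,
    ⟨h Pool.Agent.V8H12.AM.mulLin_id, h Pool.Agent.V8H12.AM.mulLin_totient, h Pool.Agent.V8H12.AM.mulLin_sigma,
      h Pool.Agent.V8H12.AM.mulLin_div,
      ⟨Pool.Agent.V8H12.AM.addLin_sopfr.add, Pool.Agent.V8H12.AM.addLin_sopfr.prime⟩⟩,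
    fun n hn => Pool.Agent.N141.SG.badU_lt hn, Pool.Agent.N141.SG.badU_vals⟩

end Pool.Agent.Results.MP_d03834_ag.ArithmeticMultiplicities
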