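import Mathlib
import Pool.Agent.V8H28.BL.C

set_option autoImplicit false

/-!
# Multiplicities and degrees `β a b + g(a) + h(b)` with arbitrary functions `g`, `h` and arbitrary large sets

Let `κ > 0`, let `A ⊆ (U, U + X]` and `B ⊆ (V, V + Y]` be any sets with `#A #B ≥ max (X, Y) min (X, Y) ^ κ` (for instance two subsets of
`[1, N]` with `#A #B ≥ N ^ (1 + κ)`, such as two sets of `N ^ (1 / 2 + κ)` elements, or all integers up to `N` and any `N ^ κ` of them), let
`1 ≤ β ≤ min (X, Y) ^ (κ / 2)` be an integer and let `g`, `h` be ANY functions from the natural numbers to the natural numbers. Here `X` and `Y` are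
larger than some `M` which depends on `κ` only (in (2) on `κ`, `n` and `δ`). The condition on `#A #B` is natural: for `#A = 1` the values
`β a b + g(a) + h(b)` can be any large numbers.

(1) For at least the proportion `10 ^ (-89)` of the pairs `(a, b)` in `A × B` the multiplicity `m = β a b + g(a) + h(b)` is positive, and for
EVERY number `n ≥ 10` of points and EVERY degree `d` the space of the forms of degree `d` with `n` general points of
multiplicity `m` has the expected dimension.

(2) For every single `n ≥ 10` this holds in all degrees for all but at most the proportion `bad n + δ` of the pairs; `bad n < 1`,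
`bad n = 0` for `n ≥ 37`, `n = 13`, `n = 21` and the squares, `bad 10 < 0.163`, `bad 11 < 0.053`.

(3) For at least `1.4` per cent of the pairs the degree `d = β a b + g(a) + h(b)` is good for EVERY number `n ≥ 10` of points and
EVERY multiplicity `m ≥ 1`. For ten points this holds for at least `48.6` per cent of the pairs, for eleven points for at
least `98.6` per cent.

Proof. The plane systems are those of helper141 (`Pool.Agent.N141.SG`, starting files): a multiplicity or degree is good if some of its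
multiples by quadratic irrationals lie in certain sets modulo one. By Cauchy's inequality (Vinogradov's bilinear form method) the
exponential sum of `θ (β a b + g(a) + h(b))` over `A × B` is `o(#A #B)` for every irrational algebraic `θ`: the differences of two
members `b`, `b'` with `β θ (b - b')` close to an integer are rare. The functions `g`, `h` play no role in this
argument. Roth's theorem (starting file `Pool.Agent.W472.AC.RothThm`) gives the exponent. The passage from the sums to the systems is that of helper12 (`Pool.Agent.V8H12.AM`), and a sequence of counterexamples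
would contradict it, so that `M` is uniform.
-/

namespace Pool.Agent.Results.MP_d03834_ag.BilinearFamilies

open MvPolynomial Filter

/-- For general points `P 1, …, P n` (outside the hypersurface `F = 0` of the space of all
configurations) the space of the forms of degree `d` which vanish to order at least `m` at all the
points has the expected dimension, for every degree `d`. -/
def AllDegrees (n m : ℕ) : Prop :=
  ∃ F : MvPolynomial (Fin n × Fin 2) ℂ, F ≠ 0 ∧
    ∀ P : Fin n → Fin 2 → ℂ,
      MvPolynomial.eval (fun ij : Fin n × Fin 2 => P ij.1 ij.2) F ≠ 0 →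
      ∀ d : ℕ,
        Module.finrank ℂ
          ↥(MvPolynomial.homogeneousSubmodule (Fin 3) ℂ d ⊓
            Submodule.restrictScalars ℂ
              (⨅ i : Fin n,
                (Ideal.span
                  ({MvPolynomial.X 0 - MvPolynomial.C (P i 0) * MvPolynomial.X 2,
                    MvPolynomial.X 1 - MvPolynomial.C (P i 1) * MvPolynomial.X 2} :
                    Set (MvPolynomial (Fin 3) ℂ))) ^ m))
        = Nat.choose (d + 2) 2 - n * Nat.choose (m + 1) 2

/-- The conjecture holds for the multiplicity `m ≥ 1`: for every number `n ≥ 10` of points and every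
degree. -/
def HoldsMult (m : ℕ) : Prop := 1 ≤ m ∧ ∀ n : ℕ, 10 ≤ n → AllDegrees n m

open Classical in
/-- The bound for the proportion of the bad multiplicities for `n` points. -/
noncomputable def bad (n : ℕ) : ℝ :=
  if 37 ≤ n ∨ n = 13 ∨ n = 21 ∨ IsSquare n then 0
  else if n = 11 ∨ n = 15 then (√(n : ℝ) - 3) / 6
  else (min (√(n : ℝ) - 3) (2 / 3 + 9 / (4 * √(n : ℝ))) +
    min (√(n : ℝ) - 3) (2 / 3 + 1 / (4 * √(n : ℝ)))) / 2

/-- For general points `P 1, …, P n` (outside the hypersurface `F = 0` of the space of all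
configurations) the space of the forms of degree `d` which vanish to order at least `m` at all the
points has the expected dimension. -/
def Expected (n m d : ℕ) : Prop :=
  ∃ F : MvPolynomial (Fin n × Fin 2) ℂ, F ≠ 0 ∧
    ∀ P : Fin n → Fin 2 → ℂ,
      MvPolynomial.eval (fun ij : Fin n × Fin 2 => P ij.1 ij.2) F ≠ 0 →
        Module.finrank ℂ
          ↥(MvPolynomial.homogeneousSubmodule (Fin 3) ℂ d ⊓
            Submodule.restrictScalars ℂ
              (⨅ i : Fin n,
                (Ideal.span
                  ({MvPolynomial.X 0 - MvPolynomial.C (P i 0) * MvPolynomial.X 2,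
                    MvPolynomial.X 1 - MvPolynomial.C (P i 1) * MvPolynomial.X 2} :
                    Set (MvPolynomial (Fin 3) ℂ))) ^ m))
        = Nat.choose (d + 2) 2 - n * Nat.choose (m + 1) 2

/-- The conjecture holds for the degree `d`: for every number `n ≥ 10` of points and every
multiplicity. -/
def HoldsDeg (d : ℕ) : Prop := ∀ n : ℕ, 10 ≤ n → ∀ m : ℕ, 1 ≤ m → Expected n m d

/-- Two finite sets `A`, `B` of natural numbers, a coefficient `β` and two functions `g`, `h`. -/
structure Family where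
  /-- the coefficient -/
  β : ℕ
  /-- the first set -/
  A : Finset ℕ
  /-- the second set -/
  B : Finset ℕ
  /-- the first function -/
  g : ℕ → ℕ
  /-- the second function -/
  h : ℕ → ℕ

/-- The value `β a b + g(a) + h(b)`. -/
def Family.value (F : Family) (a b : ℕ) : ℕ := F.β * a * b + F.g a + F.h b

/-- The number `#A #B` of the pairs. -/
noncomputable def Family.size (F : Family) : ℝ := (F.A.card : ℝ) * F.B.card

/-- The sets `A`, `B` are subsets of intervals `(U, U + X]`, `(V, V + Y]` with `X, Y ≥ M`, the number of the pairs is a little larger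
than the lengths of the intervals: `max (X, Y) min (X, Y) ^ κ ≤ #A #B`, and the coefficient is small: `1 ≤ β ≤ min (X, Y) ^ (κ / 2)`.
There is no condition on the functions. -/
def Large (κ M : ℝ) (F : Family) : Prop :=
  ∃ U X V Y : ℕ, M ≤ X ∧ M ≤ Y ∧ F.A ⊆ Finset.Ioc U (U + X) ∧ F.B ⊆ Finset.Ioc V (V + Y) ∧
    max (X : ℝ) Y * (min (X : ℝ) Y) ^ κ ≤ F.size ∧ 1 ≤ F.β ∧ (F.β : ℝ) ≤ (min (X : ℝ) Y) ^ (κ / 2)

/-- For every `κ > 0`, `P` is true for all large families, with some `M`. -/
def ForLarge (P : Family → Prop) : Prop := ∀ κ : ℝ, 0 < κ → ∃ M : ℝ, ∀ F : Family, Large κ M F → P F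

/-- The number of the pairs `(a, b)`, `a ∈ A`, `b ∈ B`, whose value has the property `p`. -/
noncomputable def count (F : Family) (p : ℕ → Prop) : ℝ :=
  ({q : ℕ × ℕ | q.1 ∈ F.A ∧ q.2 ∈ F.B ∧ p (F.value q.1 q.2)}.ncard : ℝ)

theorem forLarge_of {Q : Pool.Agent.V8H28.BL.Dat → Prop} {P : Family → Prop}
    (h : ∀ κ : ℝ, 0 < κ → ∃ M : ℝ, ∀ d : Pool.Agent.V8H28.BL.Dat, Pool.Agent.V8H28.BL.Large κ M d → Q d)
    (hQ : ∀ F : Family, Q ⟨F.β, F.A, F.B, F.g, F.h⟩ → P F) : ForLarge P := by
  intro κ hκ
  obtain ⟨M, hM⟩ := h κ hκ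
  refine ⟨M, fun F hF => hQ F (hM _ ?_)⟩
  obtain ⟨U, X, V, Y, h1, h2, h3, h4, h5, h6, h7⟩ := hF
  exact ⟨U, X, V, Y, h1, h2, fun a ha => Finset.mem_Ioc.1 (h3 ha), fun b hb => Finset.mem_Ioc.1 (h4 hb), h5, h6, h7⟩

theorem count_le {F : Family} {p q : ℕ → Prop} (h : ∀ m, p m → q m) :
    Pool.Agent.V8H28.BL.cnt ⟨F.β, F.A, F.B, F.g, F.h⟩ p ≤ count F q := by
  unfold count Pool.Agent.V8H28.BL.cnt
  have hfin : {x : ℕ × ℕ | x.1 ∈ F.A ∧ x.2 ∈ F.B ∧ q (F.value x.1 x.2)}.Finite :=
    (Finset.finite_toSet (F.A ×ˢ F.B)).subset fun x hx => by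
      rw [Finset.coe_product]
      exact ⟨hx.1, hx.2.1⟩
  have hsub : {x : ℕ × ℕ | x.1 ∈ F.A ∧ x.2 ∈ F.B ∧
        p (Pool.Agent.V8H28.BL.Dat.val ⟨F.β, F.A, F.B, F.g, F.h⟩ x.1 x.2)} ⊆
      {x : ℕ × ℕ | x.1 ∈ F.A ∧ x.2 ∈ F.B ∧ q (F.value x.1 x.2)} := fun x hx => ⟨hx.1, hx.2.1, h _ hx.2.2⟩
  exact_mod_cast Set.ncard_le_ncard hsub hfin

theorem le_count {F : Family} {p q : ℕ → Prop} (h : ∀ m, p m → q m) :
    count F p ≤ Pool.Agent.V8H28.BL.cnt ⟨F.β, F.A, F.B, F.g, F.h⟩ q := by
  unfold count Pool.Agent.V8H28.BL.cnt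
  have hfin : {x : ℕ × ℕ | x.1 ∈ F.A ∧ x.2 ∈ F.B ∧
      q (Pool.Agent.V8H28.BL.Dat.val ⟨F.β, F.A, F.B, F.g, F.h⟩ x.1 x.2)}.Finite :=
    (Finset.finite_toSet (F.A ×ˢ F.B)).subset fun x hx => by
      rw [Finset.coe_product]
      exact ⟨hx.1, hx.2.1⟩
  have hsub : {x : ℕ × ℕ | x.1 ∈ F.A ∧ x.2 ∈ F.B ∧ p (F.value x.1 x.2)} ⊆
      {x : ℕ × ℕ | x.1 ∈ F.A ∧ x.2 ∈ F.B ∧
        q (Pool.Agent.V8H28.BL.Dat.val ⟨F.β, F.A, F.B, F.g, F.h⟩ x.1 x.2)} := fun x hx => ⟨hx.1, hx.2.1, h _ hx.2.2⟩
  exact_mod_cast Set.ncard_le_ncard hsub hfin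

theorem allDegrees_of {n m : ℕ} (h : Pool.Agent.N141.SG.Ex n m) : AllDegrees n m := by
  obtain ⟨F, hF, hF'⟩ := h
  refine ⟨F.map (algebraMap ℚ ℂ), Pool.Agent.H932R3.map_ne_zero_of hF, fun P hP d => ?_⟩
  rw [MvPolynomial.eval_map] at hP
  have h1 := hF' P hP d
  unfold Pool.Agent.H932R3.ExpDim at h1
  rw [Finset.sum_const, Finset.card_univ, Fintype.card_fin, smul_eq_mul] at h1
  exact h1

theorem holds_of {m : ℕ} (hm : 1 ≤ m) (h : Pool.Agent.N141.SG.Tgt (m : ℕ)) : HoldsMult m :=
  ⟨hm, fun _ hn => allDegrees_of (Pool.Agent.N141.SG.every h hm hn)⟩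

theorem expected_of {n m d : ℕ} (h : ∃ F : MvPolynomial (Fin n × Fin 2) ℚ, F ≠ 0 ∧
    ∀ P : Fin n → Fin 2 → ℂ, MvPolynomial.aeval (fun ij : Fin n × Fin 2 => P ij.1 ij.2) F ≠ 0 →
      Pool.Agent.H932R3.ExpDim ℂ (fun _ => m) P d) : Expected n m d := by
  obtain ⟨F, hF, hF'⟩ := h
  refine ⟨F.map (algebraMap ℚ ℂ), Pool.Agent.H932R3.map_ne_zero_of hF, fun P hP => ?_⟩
  rw [MvPolynomial.eval_map] at hP
  have h1 := hF' P hP
  unfold Pool.Agent.H932R3.ExpDim at h1
  rw [Finset.sum_const, Finset.card_univ, Fintype.card_fin, smul_eq_mul] at h1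
  exact h1

theorem near_of {n d : ℕ} (h : Pool.Agent.N141.SG.NearDeg n d) (m : ℕ) (hm : 1 ≤ m) : Expected n m d :=
  expected_of (h m hm (fun _ => m) fun _ => Or.inl rfl)

/-- **Main result.** For all large families (arbitrary functions `g`, `h`, arbitrary subsets `A`, `B` of two intervals with
`#A #B ≥ max (X, Y) min (X, Y) ^ κ`, small coefficients `β ≥ 1`): for at least the proportion `10 ^ (-89)` of the pairs `(a, b)` the multiplicity `β a b + g(a) + h(b)` is good
for all numbers of points and all degrees, and for every `n ≥ 10` it is good for `n` points and all degrees for all but at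
most the proportion `bad n + δ`. For at least `1.4` per cent of the pairs the degree `β a b + g(a) + h(b)` is good for all numbers of
points and all multiplicities, it is good for ten points and all multiplicities for at least `48.6` per cent and for eleven
points and all multiplicities for at least `98.6` per cent. -/
theorem result :
    ForLarge (fun F => 1 / 10 ^ 89 * F.size ≤ count F HoldsMult) ∧
    (∀ n : ℕ, 10 ≤ n → ∀ δ : ℝ, 0 < δ →
      ForLarge (fun F => count F (fun m => ¬ (1 ≤ m ∧ AllDegrees n m)) ≤ (bad n + δ) * F.size)) ∧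
    ForLarge (fun F => 14 / 1000 * F.size ≤ count F HoldsDeg) ∧
    ForLarge (fun F => 486 / 1000 * F.size ≤ count F (fun d => ∀ m : ℕ, 1 ≤ m → Expected 10 m d)) ∧
    ForLarge (fun F => 986 / 1000 * F.size ≤ count F (fun d => ∀ m : ℕ, 1 ≤ m → Expected 11 m d)) ∧
    (∀ n : ℕ, 10 ≤ n → bad n < 1) ∧
    (bad 10 < 0.163 ∧ bad 11 < 0.053 ∧ bad 12 < 0.465 ∧ bad 14 < 0.738 ∧ bad 15 < 0.146) := by
  refine ⟨?_, fun n hn δ hδ => ?_, ?_, ?_, ?_, fun n hn => Pool.Agent.N141.SG.badU_lt hn,
    Pool.Agent.N141.SG.badU_vals⟩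
  · exact forLarge_of (fun κ hκ => Pool.Agent.V8H28.BL.tgt_unif hκ) fun F hF => hF.trans (count_le fun m hm => holds_of hm.1 hm.2)
  · refine forLarge_of (fun κ hκ => Pool.Agent.V8H28.BL.one_unif hκ hn hδ) fun F hF => le_trans (le_count fun m hm => ?_) hF
    rcases Nat.eq_zero_or_pos m with h | h
    · exact Or.inl h
    · exact Or.inr fun h1 => hm ⟨h, allDegrees_of h1⟩
  · exact forLarge_of (fun κ hκ => Pool.Agent.V8H28.BL.dtgt_unif hκ) fun F hF => hF.trans (count_le fun d hd n hn m hm =>
      expected_of (Pool.Agent.N141.SG.every_deg hd hn hm))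
  · exact forLarge_of (fun κ hκ => Pool.Agent.V8H28.BL.ten_unif hκ) fun F hF => hF.trans (count_le fun d hd m hm => near_of hd m hm)
  · exact forLarge_of (fun κ hκ => Pool.Agent.V8H28.BL.eleven_unif hκ) fun F hF => hF.trans (count_le fun d hd m hm => near_of hd m hm)

end Pool.Agent.Results.MP_d03834_ag.BilinearFamilies
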