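import Mathlib
import Pool.Agent.V8H12.AM.G
import Pool.Agent.V8H12.AM.H

set_option autoImplicit false

/-!
# Multiplicities and degrees with restricted digits

Let `Q` be a base and let `D 0, D 1, …` be any sets of at least two digits `0 ≤ a < Q`. Let `S k` be the set of the numbers
`∑ a_j Q ^ j`, `j < k`, with `a_j ∈ D j` (for instance the numbers below `10 ^ k` with the decimal digits `0` and `1` only; the sets
`S k` have dimension as small as `log 2 / log Q`). For all large `k`:

(1) For at least the proportion `10 ^ (-89)` of the `m ∈ S k`: for EVERY number `n ≥ 10` of points and EVERY degree `d` the space of the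
forms of degree `d` with `n` general points of multiplicity `m` has the expected dimension.

(2) For every single `n ≥ 10` this holds in all degrees for all but at most the proportion `bad n + δ` of the `m ∈ S k`; `bad n < 1`,
`bad n = 0` for `n ≥ 37`, `n = 13`, `n = 21` and the squares, `bad 10 < 0.163`, `bad 11 < 0.053`.

(3) For at least `1.4` per cent of the `d ∈ S k`: for EVERY number `n ≥ 10` of points and EVERY multiplicity `m ≥ 1` the space of the forms
of degree `d` with `n` general points of multiplicity `m` has the expected dimension. For ten points this holds for at least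
`48.6` per cent of the `d ∈ S k`, for eleven points for at least `98.6` per cent.

The sets `S k` are very thin, and so this does not follow from the density of the good multiplicities and degrees.

Proof. The plane systems are those of helper141 (`Pool.Agent.N141.SG`): a multiplicity or degree is good if some of its multiples
by quadratic irrationals lie in certain sets modulo one. The exponential sum of `θ m` over `S k` is a product, and for
every irrational `θ` it is `o(#(S k))`: if `L` is the factorial of `Q`, then infinitely many of the numbers `θ L Q ^ j` have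
distance at least `1 / (2 Q)` from the integers.
-/

namespace Pool.Agent.Results.MP_d03834_ag.RestrictedDigits

open MvPolynomial Filter

/-- For general points `P 1, …, P n` (outside the hypersurface `F = 0` of the space of all
configurations) the space of the forms of degree `d` which vanish to order at least `m` at all the
points has the expected dimension, for every degree `d`. -/
def AllDegrees (n m : ℕ) : Prop :=
  ∃ F : MvPolynomial (Fin n × Fin 2) ℂ, F ≠ 0 ∧
    ∀ P : Fin n → Fin 2 → ℂ,
      MvPolynomial.eval (fun ij : Fin n × Fin 2 => P ij.1 ij.2) F ≠ 0 →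
      ∀ d : ℕ,
        Module.finrank ℂ
          ↥(MvPolynomial.homogeneousSubmodule (Fin 3) ℂ d ⊓
            Submodule.restrictScalars ℂ
              (⨅ i : Fin n,
                (Ideal.span
                  ({MvPolynomial.X 0 - MvPolynomial.C (P i 0) * MvPolynomial.X 2,
                    MvPolynomial.X 1 - MvPolynomial.C (P i 1) * MvPolynomial.X 2} :
                    Set (MvPolynomial (Fin 3) ℂ))) ^ m))
        = Nat.choose (d + 2) 2 - n * Nat.choose (m + 1) 2

/-- The conjecture holds for the multiplicity `m ≥ 1`: for every number `n ≥ 10` of points and every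
degree. -/
def HoldsMult (m : ℕ) : Prop := 1 ≤ m ∧ ∀ n : ℕ, 10 ≤ n → AllDegrees n m

open Classical in
/-- The bound for the proportion of the bad multiplicities for `n` points. -/
noncomputable def bad (n : ℕ) : ℝ :=
  if 37 ≤ n ∨ n = 13 ∨ n = 21 ∨ IsSquare n then 0
  else if n = 11 ∨ n = 15 then (√(n : ℝ) - 3) / 6
  else (min (√(n : ℝ) - 3) (2 / 3 + 9 / (4 * √(n : ℝ))) +
    min (√(n : ℝ) - 3) (2 / 3 + 1 / (4 * √(n : ℝ)))) / 2

/-- For general points `P 1, …, P n` (outside the hypersurface `F = 0` of the space of all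
configurations) the space of the forms of degree `d` which vanish to order at least `m` at all the
points has the expected dimension. -/
def Expected (n m d : ℕ) : Prop :=
  ∃ F : MvPolynomial (Fin n × Fin 2) ℂ, F ≠ 0 ∧
    ∀ P : Fin n → Fin 2 → ℂ,
      MvPolynomial.eval (fun ij : Fin n × Fin 2 => P ij.1 ij.2) F ≠ 0 →
        Module.finrank ℂ
          ↥(MvPolynomial.homogeneousSubmodule (Fin 3) ℂ d ⊓
            Submodule.restrictScalars ℂ
              (⨅ i : Fin n,
                (Ideal.span
                  ({MvPolynomial.X 0 - MvPolynomial.C (P i 0) * MvPolynomial.X 2,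
                    MvPolynomial.X 1 - MvPolynomial.C (P i 1) * MvPolynomial.X 2} :
                    Set (MvPolynomial (Fin 3) ℂ))) ^ m))
        = Nat.choose (d + 2) 2 - n * Nat.choose (m + 1) 2

/-- The conjecture holds for the degree `d`: for every number `n ≥ 10` of points and every
multiplicity. -/
def HoldsDeg (d : ℕ) : Prop := ∀ n : ℕ, 10 ≤ n → ∀ m : ℕ, 1 ≤ m → Expected n m d

/-- The numbers `∑ a_j Q ^ j`, `j < k`, with digits `a_j ∈ D j`. -/
def digits (Q : ℕ) (D : ℕ → Finset ℕ) : ℕ → Finset ℕ
  | 0 => {0}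
  | k + 1 => (digits Q D k ×ˢ D k).image fun x => x.1 + x.2 * Q ^ k

/-- The number of the members `m` of `S` with `p m`. -/
noncomputable def count (S : Finset ℕ) (p : ℕ → Prop) : ℝ := ({m : ℕ | m ∈ S ∧ p m}.ncard : ℝ)

theorem digits_eq (Q : ℕ) (D : ℕ → Finset ℕ) (k : ℕ) : digits Q D k = Pool.Agent.V8H12.AM.dig Q D k := by
  induction k with
  | zero => rfl
  | succ k ih =>
    show (digits Q D k ×ˢ D k).image (fun x => x.1 + x.2 * Q ^ k) =
      (Pool.Agent.V8H12.AM.dig Q D k ×ˢ D k).image (fun x => x.1 + x.2 * Q ^ k)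
    rw [ih]

theorem count_mono {S : Finset ℕ} {p q : ℕ → Prop} (h : ∀ m, p m → q m) : count S p ≤ count S q := by
  unfold count
  have hfin : {m : ℕ | m ∈ S ∧ q m}.Finite := (Finset.finite_toSet S).subset fun m hm => hm.1
  have hsub : {m : ℕ | m ∈ S ∧ p m} ⊆ {m : ℕ | m ∈ S ∧ q m} := fun m hm => ⟨hm.1, h m hm.2⟩
  exact_mod_cast Set.ncard_le_ncard hsub hfin

theorem allDegrees_of {n m : ℕ} (h : Pool.Agent.N141.SG.Ex n m) : AllDegrees n m := by
  obtain ⟨F, hF, hF'⟩ := h
  refine ⟨F.map (algebraMap ℚ ℂ), Pool.Agent.H932R3.map_ne_zero_of hF, fun P hP d => ?_⟩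
  rw [MvPolynomial.eval_map] at hP
  have h1 := hF' P hP d
  unfold Pool.Agent.H932R3.ExpDim at h1
  rw [Finset.sum_const, Finset.card_univ, Fintype.card_fin, smul_eq_mul] at h1
  exact h1

theorem holds_of {m : ℕ} (hm : 1 ≤ m) (h : Pool.Agent.N141.SG.Tgt (m : ℕ)) : HoldsMult m :=
  ⟨hm, fun _ hn => allDegrees_of (Pool.Agent.N141.SG.every h hm hn)⟩

theorem expected_of {n m d : ℕ} (h : ∃ F : MvPolynomial (Fin n × Fin 2) ℚ, F ≠ 0 ∧
    ∀ P : Fin n → Fin 2 → ℂ, MvPolynomial.aeval (fun ij : Fin n × Fin 2 => P ij.1 ij.2) F ≠ 0 →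
      Pool.Agent.H932R3.ExpDim ℂ (fun _ => m) P d) : Expected n m d := by
  obtain ⟨F, hF, hF'⟩ := h
  refine ⟨F.map (algebraMap ℚ ℂ), Pool.Agent.H932R3.map_ne_zero_of hF, fun P hP => ?_⟩
  rw [MvPolynomial.eval_map] at hP
  have h1 := hF' P hP
  unfold Pool.Agent.H932R3.ExpDim at h1
  rw [Finset.sum_const, Finset.card_univ, Fintype.card_fin, smul_eq_mul] at h1
  exact h1

theorem near_of {n d : ℕ} (h : Pool.Agent.N141.SG.NearDeg n d) (m : ℕ) (hm : 1 ≤ m) : Expected n m d :=
  expected_of (h m hm (fun _ => m) fun _ => Or.inl rfl)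

/-- **Main result.** Let the sets `D j` contain at least two digits, all smaller than `Q`. For all large `k` the following is true for
the set `S` of the numbers with digits `a_j ∈ D j`, `j < k`. For at least the proportion `10 ^ (-89)` of the `m ∈ S` the
multiplicity `m` is good for all numbers of points and all degrees, and for every `n ≥ 10` it is good for `n` points and all
degrees for all but at most the proportion `bad n + δ`. For at least `1.4` per cent of the `d ∈ S` the degree `d` is good for
all numbers of points and all multiplicities, it is good for ten points and all multiplicities for at least `48.6` per cent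
and for eleven points and all multiplicities for at least `98.6` per cent. -/
theorem result :
    (∀ (Q : ℕ) (D : ℕ → Finset ℕ), (∀ j, ∀ a ∈ D j, a < Q) → (∀ j, 2 ≤ (D j).card) →
      (∀ᶠ k : ℕ in atTop, 1 / 10 ^ 89 * ((digits Q D k).card : ℝ) ≤ count (digits Q D k) HoldsMult) ∧
      (∀ n : ℕ, 10 ≤ n → ∀ δ : ℝ, 0 < δ → ∀ᶠ k : ℕ in atTop,
        count (digits Q D k) (fun m => ¬ (1 ≤ m ∧ AllDegrees n m)) ≤ (bad n + δ) * ((digits Q D k).card : ℝ)) ∧
      (∀ᶠ k : ℕ in atTop, 14 / 1000 * ((digits Q D k).card : ℝ) ≤ count (digits Q D k) HoldsDeg) ∧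
      (∀ᶠ k : ℕ in atTop, 486 / 1000 * ((digits Q D k).card : ℝ) ≤
        count (digits Q D k) (fun d => ∀ m : ℕ, 1 ≤ m → Expected 10 m d)) ∧
      ∀ᶠ k : ℕ in atTop, 986 / 1000 * ((digits Q D k).card : ℝ) ≤
        count (digits Q D k) (fun d => ∀ m : ℕ, 1 ≤ m → Expected 11 m d)) ∧
    (∀ n : ℕ, 10 ≤ n → bad n < 1) ∧
    (bad 10 < 0.163 ∧ bad 11 < 0.053 ∧ bad 12 < 0.465 ∧ bad 14 < 0.738 ∧ bad 15 < 0.146) := by
  refine ⟨fun Q D hD hD2 => ?_, fun n hn => Pool.Agent.N141.SG.badU_lt hn, Pool.Agent.N141.SG.badU_vals⟩
  have hA := Pool.Agent.V8H12.AM.algSmall_dig hD hD2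
  refine ⟨?_, fun n hn δ hδ => ?_, ?_, ?_, ?_⟩
  · filter_upwards [Pool.Agent.V8H12.AM.tgt_gen (f := fun t => t) hA] with k hk
    rw [digits_eq]
    exact hk.trans (count_mono (S := Pool.Agent.V8H12.AM.dig Q D k) (fun m hm => holds_of hm.1 hm.2))
  · filter_upwards [Pool.Agent.V8H12.AM.one_gen (f := fun t => t) hA hn hδ] with k hk
    rw [digits_eq]
    refine le_trans (count_mono (S := Pool.Agent.V8H12.AM.dig Q D k) (fun m hm => ?_)) hk
    rcases Nat.eq_zero_or_pos m with h | h
    · exact Or.inl h
    · exact Or.inr fun h1 => hm ⟨h, allDegrees_of h1⟩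
  · filter_upwards [Pool.Agent.V8H12.AM.dtgt_gen (f := fun t => t) hA] with k hk
    rw [digits_eq]
    exact hk.trans (count_mono (S := Pool.Agent.V8H12.AM.dig Q D k) (fun d hd n hn m hm =>
      expected_of (Pool.Agent.N141.SG.every_deg hd hn hm)))
  · filter_upwards [Pool.Agent.V8H12.AM.ten_gen (f := fun t => t) hA] with k hk
    rw [digits_eq]
    exact hk.trans (count_mono (S := Pool.Agent.V8H12.AM.dig Q D k) (fun d hd m hm => near_of hd m hm))
  · filter_upwards [Pool.Agent.V8H12.AM.eleven_gen (f := fun t => t) hA] with k hk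
    rw [digits_eq]
    exact hk.trans (count_mono (S := Pool.Agent.V8H12.AM.dig Q D k) (fun d hd m hm => near_of hd m hm))

end Pool.Agent.Results.MP_d03834_ag.RestrictedDigits
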